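import Pool.Agent.helper75.IQ.Spec

set_option autoImplicit false

namespace Pool.Agent.helper75.IQ

open MeasureTheory Set Filter Topology ContinuousLinearMap
open scoped Convolution

instance WCL_i1 : (volume : Measure (ℝ × ℝ)).IsAddHaarMeasure := Measure.prod.instIsAddHaarMeasure volume volume

instance WCL_i2 : (volume : Measure (ℝ × ℝ × ℝ)).IsAddHaarMeasure :=
  Measure.prod.instIsAddHaarMeasure volume volume

/-- the bump functions -/
noncomputable def WCL_b (n : ℕ) : ContDiffBump (0 : Sp) where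
  rIn := (1 / ((n : ℝ) + 1)) / 2
  rOut := 1 / ((n : ℝ) + 1)
  rIn_pos := by positivity
  rIn_lt_rOut := half_lt_self (by positivity)

/-- the normed bump functions -/
noncomputable def WCL_f (n : ℕ) : Sp → ℝ := (WCL_b n).normed volume

/-- the mollified function -/
noncomputable def WCL_g (g : Sp → ℝ) (n : ℕ) : Sp → ℝ := (WCL_f n) ⋆[lsmul ℝ ℝ, volume] g

theorem WCL_near (R e : ℝ) (he : 0 ≤ e) (hR : 0 < R - 2 * e) (a b c d : ℝ) (h : a ^ 2 + b ^ 2 < (R - 2 * e) ^ 2)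
    (hc : |c| ≤ e) (hd : |d| ≤ e) : (a + c) ^ 2 + (b + d) ^ 2 < R ^ 2 := by
  set s := √(a ^ 2 + b ^ 2) with hs
  have hs0 : 0 ≤ s := Real.sqrt_nonneg _
  have hs2 : s ^ 2 = a ^ 2 + b ^ 2 := Real.sq_sqrt (by positivity)
  have hsR : s < R - 2 * e := by
    rw [hs]
    exact (Real.sqrt_lt' hR).2 h
  have hc2 : c ^ 2 ≤ e ^ 2 := by
    rw [← sq_abs c]
    exact pow_le_pow_left₀ (abs_nonneg c) hc 2
  have hd2 : d ^ 2 ≤ e ^ 2 := by
    rw [← sq_abs d]
    exact pow_le_pow_left₀ (abs_nonneg d) hd 2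
  have h1 : (a * c + b * d) ^ 2 ≤ (2 * s * e) ^ 2 := by
    have h2 : (a * c + b * d) ^ 2 ≤ (a ^ 2 + b ^ 2) * (c ^ 2 + d ^ 2) := by nlinarith [sq_nonneg (a * d - b * c)]
    have h3 : (a ^ 2 + b ^ 2) * (c ^ 2 + d ^ 2) ≤ (a ^ 2 + b ^ 2) * (4 * e ^ 2) := by
      apply mul_le_mul_of_nonneg_left _ (by positivity)
      nlinarith [sq_nonneg e]
    calc (a * c + b * d) ^ 2 ≤ (a ^ 2 + b ^ 2) * (4 * e ^ 2) := h2.trans h3
      _ = (2 * s * e) ^ 2 := by rw [← hs2]; ring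
  have h4 : a * c + b * d ≤ 2 * s * e := by
    have h5 := abs_le_of_sq_le_sq h1 (by positivity)
    exact (le_abs_self _).trans h5
  have h6 : (a + c) ^ 2 + (b + d) ^ 2 ≤ (s + 2 * e) ^ 2 := by nlinarith [sq_nonneg e]
  have h7 : s + 2 * e < R := by linarith
  calc (a + c) ^ 2 + (b + d) ^ 2 ≤ (s + 2 * e) ^ 2 := h6
    _ < R ^ 2 := pow_lt_pow_left₀ h7 (by positivity) two_ne_zero

theorem WCL_li (g : Sp → ℝ) (hm : Measurable g) (hb : ∀ p, |g p| ≤ 1) : LocallyIntegrable g volume := by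
  intro x
  refine ⟨Metric.ball x 1, Metric.ball_mem_nhds x one_pos, ?_⟩
  exact Measure.integrableOn_of_bounded (M := 1) measure_ball_lt_top.ne hm.aestronglyMeasurable
    (Filter.Eventually.of_forall fun p => by rw [Real.norm_eq_abs]; exact hb p)

theorem WCL_fc (n : ℕ) : ContDiff ℝ 1 (WCL_f n) := (WCL_b n).contDiff_normed

theorem WCL_fs (n : ℕ) : HasCompactSupport (WCL_f n) := (WCL_b n).hasCompactSupport_normed

theorem WCL_deriv (g : Sp → ℝ) (hm : Measurable g) (hb : ∀ p, |g p| ≤ 1) (n : ℕ) (x e : Sp) :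
    DifferentiableAt ℝ (WCL_g g n) x ∧
    fderiv ℝ (WCL_g g n) x e = -∫ p, g p * fderiv ℝ (fun q => WCL_f n (x - q)) p e := by
  have h1 := HasCompactSupport.hasFDerivAt_convolution_left (lsmul ℝ ℝ) (WCL_fs n) (WCL_fc n)
    (WCL_li g hm hb) x
  refine ⟨h1.differentiableAt, ?_⟩
  have h2 : fderiv ℝ (WCL_g g n) x = (fderiv ℝ (WCL_f n) ⋆[(lsmul ℝ ℝ).precompL Sp, volume] g) x := h1.fderiv
  have h3 : ConvolutionExistsAt (fderiv ℝ (WCL_f n)) g x ((lsmul ℝ ℝ : ℝ →L[ℝ] ℝ →L[ℝ] ℝ).precompL Sp) volume :=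
    ((WCL_fs n).fderiv ℝ).convolutionExists_left _ ((WCL_fc n).continuous_fderiv one_ne_zero) (WCL_li g hm hb) x
  have h4 := h3.integrable_swap
  rw [h2, convolution_eq_swap, ContinuousLinearMap.integral_apply h4, ← integral_neg]
  apply integral_congr_ae
  filter_upwards with p
  have h5 : HasFDerivAt (fun q => WCL_f n (x - q)) ((fderiv ℝ (WCL_f n) (x - p)).comp (-ContinuousLinearMap.id ℝ Sp)) p := by
    have h6 : HasFDerivAt (WCL_f n) (fderiv ℝ (WCL_f n) (x - p)) (x - p) :=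
      ((WCL_fc n).differentiable one_ne_zero _).hasFDerivAt
    exact h6.comp p ((hasFDerivAt_id p).const_sub x)
  rw [h5.fderiv]
  simp [precompL_apply]
  ring

theorem WCL_test (R : ℝ) (n : ℕ) (x : Sp) (hR : 0 < R - 2 * (1 / ((n : ℝ) + 1)))
    (hx : nq (pr x) < (R - 2 * (1 / ((n : ℝ) + 1))) ^ 2) : Test R (fun q => WCL_f n (x - q)) := by
  have hcs : HasCompactSupport (fun q => WCL_f n (x - q)) := by
    have := (WCL_fs n).comp_homeomorph (Homeomorph.subLeft x)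
    exact this
  refine ⟨(WCL_fc n).comp (contDiff_const.sub contDiff_id), hcs, ?_⟩
  intro p hp
  have h1 : tsupport (fun q => WCL_f n (x - q)) ⊆ Metric.closedBall x (1 / ((n : ℝ) + 1)) := by
    apply closure_minimal _ Metric.isClosed_closedBall
    intro q hq
    have h2 : x - q ∈ Function.support (WCL_f n) := hq
    have h3 : x - q ∈ Metric.ball (0 : Sp) (1 / ((n : ℝ) + 1)) := by
      have := (WCL_b n).support_normed_eq (μ := volume)
      rw [WCL_f, this] at h2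
      exact h2
    rw [mem_ball_zero_iff] at h3
    rw [Metric.mem_closedBall, dist_comm, dist_eq_norm]
    exact h3.le
  have h4 := h1 hp
  rw [Metric.mem_closedBall, dist_eq_norm] at h4
  have h5 : |p.1 - x.1| ≤ 1 / ((n : ℝ) + 1) := (norm_fst_le (p - x)).trans h4
  have h6 : |p.2.1 - x.2.1| ≤ 1 / ((n : ℝ) + 1) := ((norm_fst_le (p - x).2).trans (norm_snd_le (p - x))).trans h4
  have h7 := WCL_near R (1 / ((n : ℝ) + 1)) (by positivity) hR x.1 x.2.1 (p.1 - x.1) (p.2.1 - x.2.1) hx h5 h6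
  have h8 : x.1 + (p.1 - x.1) = p.1 := by ring
  have h9 : x.2.1 + (p.2.1 - x.2.1) = p.2.1 := by ring
  rw [h8, h9] at h7
  exact h7

theorem WCL_const (R : ℝ) (g : Sp → ℝ) (hm : Measurable g) (hb : ∀ p, |g p| ≤ 1)
    (hz : ∀ φ : Sp → ℝ, Test R φ → ∫ p, g p * fderiv ℝ φ p (1, 0, 0) = 0 ∧ ∫ p, g p * fderiv ℝ φ p (0, 1, 0) = 0)
    (n : ℕ) (hR : 0 < R - 2 * (1 / ((n : ℝ) + 1))) (x : Sp)
    (hx : nq (pr x) < (R - 2 * (1 / ((n : ℝ) + 1))) ^ 2) : WCL_g g n x = WCL_g g n (0, 0, x.2.2) := by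
  have hd : ∀ y : Sp, DifferentiableAt ℝ (WCL_g g n) y := fun y => (WCL_deriv g hm hb n y 0).1
  have h0 : ∀ θ ∈ Icc (0 : ℝ) 1, HasDerivAt (fun t : ℝ => WCL_g g n (t * x.1, t * x.2.1, x.2.2)) 0 θ := by
    intro θ hθ
    set y : Sp := (θ * x.1, θ * x.2.1, x.2.2) with hy
    have hy1 : nq (pr y) < (R - 2 * (1 / ((n : ℝ) + 1))) ^ 2 := by
      refine lt_of_le_of_lt ?_ hx
      simp only [nq, pr, hy]
      have : θ ^ 2 ≤ 1 := by nlinarith [hθ.1, hθ.2]
      nlinarith [sq_nonneg x.1, sq_nonneg x.2.1]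
    have ht := hz _ (WCL_test R n y hR hy1)
    have e1 := (WCL_deriv g hm hb n y (1, 0, 0)).2
    have e2 := (WCL_deriv g hm hb n y (0, 1, 0)).2
    rw [ht.1, neg_zero] at e1
    rw [ht.2, neg_zero] at e2
    have h1 : HasDerivAt (fun t : ℝ => ((t * x.1, t * x.2.1, x.2.2) : Sp)) (x.1, x.2.1, 0) θ := by
      have a1 : HasDerivAt (fun t : ℝ => t * x.1) x.1 θ := by
        simpa using (hasDerivAt_id θ).mul_const x.1
      have a2 : HasDerivAt (fun t : ℝ => t * x.2.1) x.2.1 θ := by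
        simpa using (hasDerivAt_id θ).mul_const x.2.1
      exact a1.prodMk (a2.prodMk (hasDerivAt_const θ x.2.2))
    have h2 := (hd y).hasFDerivAt.comp_hasDerivAt θ h1
    have h3 : fderiv ℝ (WCL_g g n) y (x.1, x.2.1, 0) = 0 := by
      have : ((x.1, x.2.1, 0) : Sp) = x.1 • ((1, 0, 0) : Sp) + x.2.1 • ((0, 1, 0) : Sp) := by
        simp
      rw [this, map_add, map_smul, map_smul, e1, e2]
      simp
    rw [h3] at h2
    exact h2
  have h1 := constant_of_has_deriv_right_zero (f := fun t : ℝ => WCL_g g n (t * x.1, t * x.2.1, x.2.2))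
    (a := 0) (b := 1) (fun θ hθ => (h0 θ hθ).continuousAt.continuousWithinAt)
    (fun θ hθ => (h0 θ ⟨hθ.1, hθ.2.le⟩).hasDerivWithinAt) 1 ⟨zero_le_one, le_rfl⟩
  simpa using h1

theorem WCL : WCL_stmt := by
  intro R g hR0 hm hb hz
  have hd : ∀ (n : ℕ) (y : Sp), DifferentiableAt ℝ (WCL_g g n) y := fun n y => (WCL_deriv g hm hb n y 0).1
  refine ⟨fun v => limsup (fun n => WCL_g g n (0, 0, v)) atTop, ?_, ?_⟩
  · apply Measurable.limsup
    intro n
    have hc : Continuous (WCL_g g n) := continuous_iff_continuousAt.2 fun y => (hd n y).continuousAt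
    exact (hc.comp (by fun_prop : Continuous fun v : ℝ => ((0, 0, v) : Sp))).measurable
  · have hlim : Tendsto (fun n : ℕ => 1 / ((n : ℝ) + 1)) atTop (𝓝 0) := tendsto_one_div_add_atTop_nhds_zero_nat
    have h1 := ContDiffBump.ae_convolution_tendsto_right_of_locallyIntegrable (μ := (volume : Measure Sp))
      (φ := WCL_b) (l := atTop) (K := 2) hlim
      (Filter.Eventually.of_forall fun n => by simp only [WCL_b]; linarith) (WCL_li g hm hb)
    filter_upwards [h1] with p hp hpR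
    have h2 : ∀ᶠ n : ℕ in atTop, WCL_g g n p = WCL_g g n (0, 0, p.2.2) := by
      have h3 : Tendsto (fun n : ℕ => R - 2 * (1 / ((n : ℝ) + 1))) atTop (𝓝 R) := by
        simpa using tendsto_const_nhds.sub (hlim.const_mul 2)
      have h4 : Tendsto (fun n : ℕ => (R - 2 * (1 / ((n : ℝ) + 1))) ^ 2) atTop (𝓝 (R ^ 2)) := h3.pow 2
      filter_upwards [h3.eventually (lt_mem_nhds hR0), h4.eventually (lt_mem_nhds hpR)] with n a b
      exact WCL_const R g hm hb hz n a p b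
    have h5 : Tendsto (fun n => WCL_g g n (0, 0, p.2.2)) atTop (𝓝 (g p)) :=
      Tendsto.congr' h2 hp
    exact h5.limsup_eq.symm

end Pool.Agent.helper75.IQ
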